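import Pool.Agent.H452.H7
import Pool.Agent.H452.K5

/-!
# MP_cda23d_nt: Serre's question at all levels `n` at once, for explicit classes of curves

Let `K` be a number field (the question is about `K = ℚ`), `E : y² = x³ + Ax + B` an elliptic curve over
`K`, `j` its invariant, `Δ = 4A³ + 27B²`, `ord_v` the normalised valuation of a prime `v` of `K`, `N(v)`
the number of elements of its residue field and `K_v` the completion.

A prime `v` above `2` is called *primitive* (`PrimitiveAt`) if

* (a) `ord_v(A) = 1` and `ord_v(B) = ord_v(2) + 1`, or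
* (b) `0 < ord_v(j) < 12 ord_v(2)` and `ord_v(j)` is divisible neither by `3` nor by `4`, or
* (c) the decomposition group of a prime of `K̄` above `v` acts on `E[3]` through a group which
  contains `SL₂(𝔽₃)`.

A prime `v` is called *rigid* (`Rigid`) if

* `v ∤ 2`, `3 ∤ ord_v(B)`, `2 ord_v(B) < 3 ord_v(A)` and `-Δ` is not a square in `K_v`; or
* `v ∤ 2`, `ord_v(A)` is odd, `3 ord_v(A) < 2 ord_v(B)` and `-1` is not a square in `K_v`; or
* `v ∣ 2`, `ord_v(j) > 0` and the decomposition group of a prime of `K̄` above `v` acts on `E[3]` through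
  a nonabelian group, or `3 ∤ ord_v(j)` and `N(v) ≡ 2 mod 3`.

**Result.**  Let `n` be a positive integer such that every prime factor `p` of `n` is at least `5` and
satisfies one of the following conditions:

* (1) there is a primitive prime `v ∣ 2`, and `p > 15 [K : ℚ] + 1`, or `p > 15 ord_q(p) + 1` for some
  prime `q` above `p`; or
* (2) for some prime `w` of `K` the order `ord_w(j)` is negative and not divisible by `p` (if `w` is above
  `p`, we suppose that `8 ord_w(p) < p² - 1`), and there is a primitive prime `v ∣ 2` or a rigid prime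
  `v ∤ p`.

Then the image of `Gal(K̄/K)` in `Aut(E[n])` is as large as possible: it consists of all automorphisms
whose determinant is a value of the cyclotomic character of `K` modulo `n`.  If `K = ℚ` (that is
`[K : ℚ] = 1`), then `Gal(K̄/K) → Aut(E[n]) ≅ GL₂(ℤ/n)` is surjective.

For instance, if `K = ℚ`, the representation `ρ_{E,n}` is surjective

* for EVERY curve for which `2` is primitive and EVERY `n` all of whose prime factors are at least `17`;
* for EVERY curve with a rigid prime `ℓ` and with `ord_w(j) = -1` for one prime number `w`, and EVERY `n`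
  prime to `6 ℓ`.  The prime `2` is rigid if `ord_2(j) > 0` is not divisible by `3`; the prime `3` is
  rigid if `3 ∣ A`, `3 ∣ B`, `9 ∤ B`, and `5` if `5 ∣ A`, `5 ∣ B`, `25 ∤ B`.

So for these classes there is a constant `C` as in Q1 which does not depend on the curve (`C = 13` for the
first one; the second one has no lower bound for the primes), not only for the representations modulo
primes `p` but for the representation on the product of the Tate modules `T_p(E)`, `p > C`: there is no
entanglement between the fields `ℚ(E[p^∞])` either.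

Proof.  Modulo primes: see the other hand-ins on the problem `MP_d87173_nt`; the decomposition group at `v`
makes `E[p]` irreducible (and primitive, if `v` is primitive), the inertia groups above `p`, or the
place `w`, give large elements.  Then: (1) (Serre) a subgroup of `GL₂(ℤ/p^a)`, `p ≥ 5`, which contains
`SL₂` modulo `p` contains `SL₂(ℤ/p^a)`.  (2) If `p` is the largest prime factor of `n = p^a m`, then
`GL₂(ℤ/m)` has no elements of order `p`; so a suitable power of an element which is unipotent modulo `p`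
is trivial modulo `m` but not modulo `p`, and the kernel of the representation modulo `m` contains
`SL₂(ℤ/p^a)`.  By induction the image contains `SL₂(ℤ/n)`.  (3) The determinant is the cyclotomic
character modulo `n`, by a Weil pairing on `E[n]`, `n` odd (constructed here with operators of
translation on a space of functions, and proved to have a value of exact order `n`).
-/

set_option autoImplicit false

open WeierstrassCurve NumberField IsDedekindDomain

namespace Pool.Agent.Results.MP_cda23d_nt.AllLevels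

section
variable {K : Type} [Field K]

/-- The absolute Galois group. -/
abbrev Gal (K : Type) [Field K] : Type := AlgebraicClosure K ≃ₐ[K] AlgebraicClosure K

/-- The curve `y² = x³ + Ax + B` over the field `K`. -/
def curve (A B : K) : WeierstrassCurve K := ⟨0, 0, 0, A, B⟩

/-- Its `j`-invariant. -/
noncomputable def invariant (A B : K) : K := 1728 * (4 * A ^ 3) / (4 * A ^ 3 + 27 * B ^ 2)

/-- The set of its points over the algebraic closure of `K`. -/
def Points (A B : K) : Type := ((curve A B).baseChange (AlgebraicClosure K)).toAffine.Point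

open scoped Classical in
/-- The group law. -/
noncomputable instance (A B : K) : AddCommGroup (Points A B) :=
  inferInstanceAs (AddCommGroup ((curve A B).baseChange (AlgebraicClosure K)).toAffine.Point)

open scoped Classical in
/-- The point `σ(P)`. -/
noncomputable def conj {A B : K} (σ : Gal K) (P : Points A B) : Points A B :=
  WeierstrassCurve.Affine.Point.map (W' := curve A B)
    (σ : AlgebraicClosure K →ₐ[K] AlgebraicClosure K) P

/-- The points `P` and `Q` form a basis of the `n`-torsion. -/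
def IsBasis {A B : K} (n : ℕ) (P Q : Points A B) : Prop :=
  n • P = 0 ∧ n • Q = 0 ∧ (∀ R : Points A B, n • R = 0 → ∃ k m : ℤ, R = k • P + m • Q) ∧
    ∀ k m : ℤ, k • P + m • Q = 0 → (n : ℤ) ∣ k ∧ (n : ℤ) ∣ m

/-- There is a basis `P, Q` of the `3`-torsion in which every matrix of determinant `1` modulo `3` is
the matrix of some `σ ∈ I`. -/
def ContainsSLThree (A B : K) (I : Set (Gal K)) : Prop :=
  ∃ P Q : Points A B, IsBasis 3 P Q ∧ ∀ a b c d : ℤ, (3 : ℤ) ∣ a * d - b * c - 1 →
    ∃ σ ∈ I, conj σ P = a • P + c • Q ∧ conj σ Q = b • P + d • Q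

/-- The integer `t` is a value modulo `n` of the cyclotomic character of `K`. -/
def IsCyclotomicValue (K : Type) [Field K] (n : ℕ) (t : ℤ) : Prop :=
  ∃ τ : Gal K, ∀ ζ : AlgebraicClosure K, ζ ^ n = 1 → τ ζ = ζ ^ t

/-- The image of the Galois group in the automorphism group of `E[n]` is as large as possible: there is
a basis of `E[n]` in which every matrix whose determinant is a value of the cyclotomic character modulo
`n` is the matrix of some `σ`. -/
def LargestImage (A B : K) (n : ℕ) : Prop :=
  ∃ P Q : Points A B, IsBasis n P Q ∧ ∀ a b c d : ℤ, IsCyclotomicValue K n (a * d - b * c) →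
    ∃ σ : Gal K, conj σ P = a • P + c • Q ∧ conj σ Q = b • P + d • Q

/-- The Galois group maps onto the automorphism group of `E[n]`: there is a basis of `E[n]` in which
every matrix whose determinant is prime to `n` is the matrix of some `σ`. -/
def Surjective (A B : K) (n : ℕ) : Prop :=
  ∃ P Q : Points A B, IsBasis n P Q ∧ ∀ a b c d : ℤ, IsCoprime (a * d - b * c) (n : ℤ) →
    ∃ σ : Gal K, conj σ P = a • P + c • Q ∧ conj σ Q = b • P + d • Q

end

variable {K : Type} [Field K] [NumberField K]

/-- The normalised valuation `ord_v(x)` of `x ∈ K`, for a prime `v` of `K` (used for `x ≠ 0`; for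
`x = 0` the value is `0` by convention). -/
noncomputable def ord (v : HeightOneSpectrum (𝓞 K)) (x : K) : ℤ := -WithZero.log (v.valuation K x)

/-- The decomposition group of a prime ideal `𝔓` of the ring of all algebraic integers of `K̄`: the
automorphisms `σ` such that an algebraic integer `x` lies in `𝔓` if and only if `σ(x)` does. -/
def decomposition (𝔓 : Ideal (𝓞 (AlgebraicClosure K))) : Set (Gal K) :=
  {σ | ∀ x : 𝓞 (AlgebraicClosure K), x ∈ 𝔓 ↔
    ∃ y ∈ 𝔓, σ (x : AlgebraicClosure K) = (y : AlgebraicClosure K)}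

/-- The hypothesis (T) at the prime `v` (above `2`). -/
def PrimitiveAt (A B : K) (v : HeightOneSpectrum (𝓞 K)) : Prop :=
  (ord v A = 1 ∧ ord v B = ord v 2 + 1) ∨
  (0 < ord v (invariant A B) ∧ ord v (invariant A B) < 12 * ord v 2 ∧
    ¬ (3 : ℤ) ∣ ord v (invariant A B) ∧ ¬ (4 : ℤ) ∣ ord v (invariant A B)) ∨
  (∃ 𝔓 : Ideal (𝓞 (AlgebraicClosure K)), 𝔓.IsPrime ∧
    𝔓.comap (algebraMap (𝓞 K) (𝓞 (AlgebraicClosure K))) = v.asIdeal ∧
    ContainsSLThree A B (decomposition 𝔓))

/-- The hypothesis (D) at the prime `w` (above any prime number): the order of `j(E)` at `w` is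
negative and not divisible by `p`; if `w` is above `p`, then `8 ord_w(p) < p² - 1`. -/
def NotPowerAt (A B : K) (p : ℕ) (w : HeightOneSpectrum (𝓞 K)) : Prop :=
  ord w (invariant A B) < 0 ∧ ¬ (p : ℤ) ∣ ord w (invariant A B) ∧
    ((p : 𝓞 K) ∉ w.asIdeal ∨ 8 * ord w (p : K) < (p : ℤ) ^ 2 - 1)

/-- The element `c ≠ 0` is a square in the completion of `K` at `v`: there is a `y` such that `c / y²`
is `1` modulo `4 π`, where `π` is a uniformiser. -/
def LocalSquare (v : HeightOneSpectrum (𝓞 K)) (c : K) : Prop :=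
  ∃ y : K, y ≠ 0 ∧ (c / y ^ 2 - 1 = 0 ∨ 2 * ord v 2 + 1 ≤ ord v (c / y ^ 2 - 1))

/-- The decomposition group of a prime above `v` acts on the `3`-torsion through a nonabelian group. -/
def NonabelianAt (A B : K) (v : HeightOneSpectrum (𝓞 K)) : Prop :=
  ∃ 𝔓 : Ideal (𝓞 (AlgebraicClosure K)), 𝔓.IsPrime ∧
    𝔓.comap (algebraMap (𝓞 K) (𝓞 (AlgebraicClosure K))) = v.asIdeal ∧
    ∃ σ ∈ decomposition 𝔓, ∃ τ ∈ decomposition 𝔓, ∃ P : Points A B, 3 • P = 0 ∧
      conj σ (conj τ P) ≠ conj τ (conj σ P)

/-- The prime `v` is rigid. -/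
def Rigid (A B : K) (v : HeightOneSpectrum (𝓞 K)) : Prop :=
  (ord v 2 = 0 ∧ ¬ (3 : ℤ) ∣ ord v B ∧ 2 * ord v B < 3 * ord v A ∧
    ¬ LocalSquare v (-(4 * A ^ 3 + 27 * B ^ 2))) ∨
  (ord v 2 = 0 ∧ ¬ (2 : ℤ) ∣ ord v A ∧ 3 * ord v A < 2 * ord v B ∧ ¬ LocalSquare v (-1 : K)) ∨
  ((2 : 𝓞 K) ∈ v.asIdeal ∧ 0 < ord v (invariant A B) ∧
    (NonabelianAt A B v ∨
      (¬ (3 : ℤ) ∣ ord v (invariant A B) ∧ Nat.card (𝓞 K ⧸ v.asIdeal) % 3 = 2)))

/-- The condition on the prime `p` (at least `5`). -/
def GoodPrime (A B : K) (p : ℕ) : Prop :=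
  ((∃ v : HeightOneSpectrum (𝓞 K), (2 : 𝓞 K) ∈ v.asIdeal ∧ PrimitiveAt A B v) ∧
    (15 * Module.finrank ℚ K + 1 < p ∨
      ∃ q : HeightOneSpectrum (𝓞 K), (p : 𝓞 K) ∈ q.asIdeal ∧ 15 * ord q (p : K) + 1 < p)) ∨
  (∃ v w : HeightOneSpectrum (𝓞 K), NotPowerAt A B p w ∧
    (((2 : 𝓞 K) ∈ v.asIdeal ∧ PrimitiveAt A B v) ∨ ((p : 𝓞 K) ∉ v.asIdeal ∧ Rigid A B v)))

theorem hyp_of {A B : K} {v : HeightOneSpectrum (𝓞 K)} (hv : PrimitiveAt A B v) :
    Pool.Agent.H452.Hyp A B v := by
  have hj : Pool.Agent.Y673.Loc.jv A B = invariant A B := by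
    unfold Pool.Agent.Y673.Loc.jv invariant
    ring
  unfold Pool.Agent.H452.Hyp
  rw [hj]
  rcases hv with h | h | ⟨𝔓, h𝔓, hv, P, Q, ⟨hP, hQ, hs, hi⟩, hall⟩
  · exact Or.inl h
  · exact Or.inr (Or.inl h)
  · obtain ⟨hP0, hPQ⟩ := Pool.Agent.H452.ne_of_basis (by norm_num) hi
    exact Or.inr (Or.inr ⟨𝔓, h𝔓, hv, P, Q, hP, hQ, hP0, hPQ, hall⟩)

theorem rgd_of {A B : K} {v : HeightOneSpectrum (𝓞 K)} (hv : Rigid A B v) :
    Pool.Agent.H452.Rgd2 A B v := by
  have hj : Pool.Agent.Y673.Loc.jv A B = invariant A B := by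
    unfold Pool.Agent.Y673.Loc.jv invariant
    ring
  rcases hv with ⟨h1, h2, h3, h4⟩ | ⟨h1, h2, h3, h4⟩ | ⟨h2, h3, h4 | ⟨h4, h5⟩⟩
  · exact Or.inl ⟨⟨h1, h2, h3⟩, h4⟩
  · exact Or.inr (Or.inl ⟨⟨h1, h2, h3⟩, h4⟩)
  · refine Or.inr (Or.inr (Or.inl ⟨h2, ?_, h4⟩))
    rw [hj]
    exact h3
  · refine Or.inr (Or.inr (Or.inr ⟨h2, ?_, ?_, h5⟩))
    · rw [hj]; exact h3
    · rw [hj]; exact h4

/-- **Largest possible images at all levels.** -/
theorem result {A B : K} (hD : 4 * A ^ 3 + 27 * B ^ 2 ≠ 0) {n : ℕ} (hn : 0 < n)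
    (hp : ∀ p : ℕ, p.Prime → p ∣ n → 5 ≤ p ∧ GoodPrime A B p) :
    LargestImage A B n ∧ (Module.finrank ℚ K = 1 → Surjective A B n) := by
  have hj : ∀ C D : K, Pool.Agent.Y673.Loc.jv C D = invariant C D := by
    intro C D
    unfold Pool.Agent.Y673.Loc.jv invariant
    ring
  have hSL : ∀ p : ℕ, p.Prime → p ∣ n → Pool.Agent.Y673.SL.HasSL A B p := by
    intro p hpp hpn
    obtain ⟨h5, h⟩ := hp p hpp hpn
    rcases h with ⟨⟨v, h2, hv⟩, h⟩ | ⟨v, w, ⟨h1, h3, h4⟩, hv⟩
    · exact Pool.Agent.H452.main_SL hD h2 (hyp_of hv) hpp h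
    have h8 : 8 * ord w (p : K) < (p : ℤ) ^ 2 - 1 := by
      rcases h4 with h4 | h4
      · have e : ord w (p : K) = 0 := Pool.Agent.H452.ord_zero_of_notMem (K := K) hpp.ne_zero h4
        rw [e]
        have : (25 : ℤ) ≤ (p : ℤ) ^ 2 := by
          have h5' : (5 : ℤ) ≤ p := by exact_mod_cast h5
          nlinarith
        omega
      · exact h4
    rcases hv with ⟨h2, hv⟩ | ⟨hpv, hv⟩
    · exact Pool.Agent.H452.has_all hD h2 (hyp_of hv) hpp (Or.inr ⟨h5, w, by rw [hj]; exact h1,
        by rw [hj]; exact h3, h8⟩)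
    · have hA : A ≠ 0 := by
        rintro rfl
        have e : invariant (0 : K) B = 0 := by
          unfold invariant
          simp
        rw [e] at h1
        have : ord w (0 : K) = 0 := by simp [ord]
        omega
      have hB : B ≠ 0 := by
        rintro rfl
        have e : invariant A (0 : K) = ((1728 : ℕ) : K) := by
          unfold invariant
          field_simp
          push_cast
          ring
        rw [e] at h1
        have : 0 ≤ ord w ((1728 : ℕ) : K) :=
          Pool.Agent.Y673.Loc.v_natCast_nonneg w 1728 (by norm_num)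
        omega
      exact Pool.Agent.H452.main_eight hD hA hB hpp h5 hpv (rgd_of hv) (w := w)
        (by rw [hj]; exact h1) (by rw [hj]; exact h3) h8
  classical
  obtain ⟨P, Q, hb⟩ : ∃ P Q : Points A B,
      Pool.Agent.H452.Bs (V := Pool.Agent.Y673.Loc.EP A B) n P Q :=
    Pool.Agent.H452.exists_Bs hD hn
  have hF := Pool.Agent.H452.full_curve hD hn (fun p hpp hpn => (hp p hpp hpn).1) hSL hb
  have hodd : Odd n := by
    rw [← Nat.not_even_iff_odd]
    intro h
    have := (hp 2 Nat.prime_two h.two_dvd).1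
    omega
  have key : ∀ a b c d : ℤ, IsCyclotomicValue K n (a * d - b * c) →
      ∃ σ : Gal K, conj σ P = a • P + c • Q ∧ conj σ Q = b • P + d • Q := by
    intro a b c d hc
    obtain ⟨σ, h1, h3⟩ := Pool.Agent.H452.largest_n hD hodd hb hF (x := !![a, b; c, d]) (by
      rw [Matrix.det_fin_two]
      exact hc)
    exact ⟨σ, h1, h3⟩
  refine ⟨⟨P, Q, hb, key⟩, fun h1 => ⟨P, Q, hb, fun a b c d hc => key a b c d ?_⟩⟩
  exact Pool.Agent.H452.cyc_irr hn (Pool.Agent.H452.irr_one h1 hn) hc

end Pool.Agent.Results.MP_cda23d_nt.AllLevels
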