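import Pool.Agent.H502.TZ.B7

/-!
# MP_cda23d_nt: a density which detects the images in normalisers of Cartan subgroups

Let `K` be a number field, `E : y² = x³ + Ax + B` an elliptic curve with coefficients in the ring of
integers of `K`, `p` an odd prime. Consider the set `S` of the places `v` with
`q_v + 1 - #E(k_v) ≡ 0 mod p`.

**Result.** (a) If the mod `p` representation of `E` is surjective, or only contains `SL₂(𝔽_p)` in its
image, then the upper density of `S` is at most `3 / 8`.

(b) The following are equivalent:

(1) the upper density of `S` is greater than `3 / 8`;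
(2) the upper density of `S` is at least `1 / 2`;
(3) there is a quadratic extension `K(√d)` such that `S` contains all places `v` which do not divide
    `2 p (4 A³ + 27 B²)` and are such that `d` is not a square modulo `v` (in particular all places which
    do not divide `2 p d (4 A³ + 27 B²)` and are inert in `K(√d)`).

Over `ℚ`, for `p > 37` and a curve without complex multiplication, a mod `p` representation which is not
surjective has its image in the normaliser of a non-split Cartan subgroup (Mazur, Bilu, Parent,
Rebolledo, Balakrishnan, Dogra, Müller, Tuitman, Vonk; not used here) and not in the Cartan subgroup (complex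
conjugation), so (3) holds. Hence by the result a constant `C ≥ 37` has the property of the question if
and only if, for all `p > C` and all curves over `ℚ` without complex multiplication, the primes `ℓ` with
`a_ℓ ≡ 0 mod p` have upper density at most `3 / 8`.

Proof. There is a representation of the Galois group over `𝔽_p` with trace `q_v + 1 - #E(k_v)` at the
Frobenius elements at the places above, which is the one on `E[p]` or abelian. By Chebotarev's density
theorem it is enough to prove: if in a finite group `G` of invertible `2 × 2` matrices over a field of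
characteristic `≠ 2` the set `Z` of the elements of trace zero has more than `3 |G| / 8` elements, then
there is a subgroup of index two whose complement is contained in `Z`. For `g ∈ G` not scalar the set
`P(g)` of the `x` such that `x` and `xg` have trace zero is empty or a coset of the centralizer `C(g)`,
`N(g) = C(g) ∪ P(g)` is then a subgroup, and `Σ |P(g)| = |Z|²`. Two elements of `Z` which commute differ
by a scalar. This shows that for `g` with `P(g)` not empty and `|C(g)|` maximal the index of `N(g)` is at
most `3`, and the indices `2` and `3` are excluded by an examination of the intersections of `C(g)` with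
the conjugates of `N(g)`. The proportion `3 / 8` occurs for `GL₂(𝔽₃)`.
-/

set_option autoImplicit false

open WeierstrassCurve NumberField IsDedekindDomain

namespace Pool.Agent.Results.MP_cda23d_nt.DensityThreeEighths

section
variable {K : Type} [Field K]

/-- The absolute Galois group. -/
abbrev Gal (K : Type) [Field K] : Type := AlgebraicClosure K ≃ₐ[K] AlgebraicClosure K

/-- The curve `y² = x³ + Ax + B` over the field `K`. -/
def curve (A B : K) : WeierstrassCurve K := ⟨0, 0, 0, A, B⟩

/-- The set of its points over the algebraic closure of `K`. -/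
def Points (A B : K) : Type := ((curve A B).baseChange (AlgebraicClosure K)).toAffine.Point

open scoped Classical in
/-- The group law. -/
noncomputable instance (A B : K) : AddCommGroup (Points A B) :=
  inferInstanceAs (AddCommGroup ((curve A B).baseChange (AlgebraicClosure K)).toAffine.Point)

open scoped Classical in
/-- The point `σ(P)`. -/
noncomputable def conj {A B : K} (σ : Gal K) (P : Points A B) : Points A B :=
  WeierstrassCurve.Affine.Point.map (W' := curve A B)
    (σ : AlgebraicClosure K →ₐ[K] AlgebraicClosure K) P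

/-- The points `P` and `Q` form a basis of the `n`-torsion. -/
def IsBasis {A B : K} (n : ℕ) (P Q : Points A B) : Prop :=
  n • P = 0 ∧ n • Q = 0 ∧ (∀ R : Points A B, n • R = 0 → ∃ k m : ℤ, R = k • P + m • Q) ∧
    ∀ k m : ℤ, k • P + m • Q = 0 → (n : ℤ) ∣ k ∧ (n : ℤ) ∣ m

/-- There is a basis `P, Q` of the `p`-torsion in which every matrix of determinant `1` modulo `p` is
the matrix of some element of the Galois group. -/
def ContainsSL (A B : K) (p : ℕ) : Prop :=
  ∃ P Q : Points A B, IsBasis p P Q ∧ ∀ a b c d : ℤ, (p : ℤ) ∣ a * d - b * c - 1 →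
    ∃ σ : Gal K, conj σ P = a • P + c • Q ∧ conj σ Q = b • P + d • Q

end

section
variable {K : Type} [Field K] [NumberField K]

/-- The number of points of the reduction of `y² = x³ + Ax + B` modulo `v`. -/
noncomputable def numPoints (v : HeightOneSpectrum (𝓞 K)) (A B : 𝓞 K) : ℕ :=
  1 + Nat.card {P : (𝓞 K ⧸ v.asIdeal) × (𝓞 K ⧸ v.asIdeal) // P.2 ^ 2 =
    P.1 ^ 3 + Ideal.Quotient.mk v.asIdeal A * P.1 + Ideal.Quotient.mk v.asIdeal B}

/-- The set of the places `v` such that `p` divides `q_v + 1 - #E(k_v)`. -/
def TraceZeroPlaces (A B : 𝓞 K) (p : ℕ) : Set (HeightOneSpectrum (𝓞 K)) :=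
  {v | (p : ℤ) ∣ (Ideal.absNorm v.asIdeal : ℤ) + 1 - numPoints v A B}

/-- The upper density of the set `S` of places is greater than `c`: for some `δ > c` there are
arbitrarily large `N` such that the proportion of the elements of `S` among the places of norm at most
`N` is at least `δ`. -/
def UpperDensityGreater (S : Set (HeightOneSpectrum (𝓞 K))) (c : ℝ) : Prop :=
  ∃ δ > c, ∀ M : ℕ, ∃ N ≥ M,
    δ * ({v : HeightOneSpectrum (𝓞 K) | Ideal.absNorm v.asIdeal ≤ N}.ncard : ℝ) ≤
      ({v : HeightOneSpectrum (𝓞 K) | v ∈ S ∧ Ideal.absNorm v.asIdeal ≤ N}.ncard : ℝ)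

end

section
open Pool.Agent.Y673.Loc Pool.Agent.H502.EC Pool.Agent.H502.TZ Pool.Agent.Y673.FM
variable {K : Type} [Field K]

open scoped Classical in
theorem containsSL {A B : K} {p : ℕ} (h : ContainsSL A B p) : HasSLp A B p := by
  obtain ⟨P, Q, ⟨h1, h2, h3, h4⟩, h5⟩ := h
  exact ⟨P, Q, h1, h2, h3, h4, h5⟩

end

/-- **The proportion `3 / 8` of places with `q_v + 1 - #E(k_v) ≡ 0 mod p`** separates the curves with
large mod `p` image from those for which these places contain all places inert in a quadratic
extension. -/
theorem result (K : Type) [Field K] [NumberField K] (A B : 𝓞 K) (hE : 4 * A ^ 3 + 27 * B ^ 2 ≠ 0)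
    (p : ℕ) (hp : p.Prime) (hp2 : p ≠ 2) :
    (ContainsSL (A : K) (B : K) p → ¬ UpperDensityGreater (TraceZeroPlaces A B p) (3 / 8)) ∧
    List.TFAE [
      UpperDensityGreater (TraceZeroPlaces A B p) (3 / 8),
      ∀ c < (1 / 2 : ℝ), UpperDensityGreater (TraceZeroPlaces A B p) c,
      ∃ d : 𝓞 K, ¬ IsSquare (d : K) ∧ ∀ v : HeightOneSpectrum (𝓞 K),
        (2 : 𝓞 K) ∉ v.asIdeal → (p : 𝓞 K) ∉ v.asIdeal → 4 * A ^ 3 + 27 * B ^ 2 ∉ v.asIdeal →
          (∀ y : 𝓞 K, d - y ^ 2 ∉ v.asIdeal) → v ∈ TraceZeroPlaces A B p] := by
  haveI : Fact p.Prime := ⟨hp⟩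
  have hS : TraceZeroPlaces A B p = {v : HeightOneSpectrum (𝓞 K) | (p : ℤ) ∣
      (Pool.Agent.Q46.FR.qv v : ℤ) + 1 - Pool.Agent.Q46.FR.pts v A B} := by
    ext v
    change _ ↔ (p : ℤ) ∣ (Pool.Agent.Q46.FR.qv v : ℤ) + 1 - Pool.Agent.Q46.FR.pts v A B
    rw [Pool.Agent.H502.EC.qv_norm]
    rfl
  refine ⟨fun hSL h => ?_, ?_⟩
  · refine Pool.Agent.H502.TZ.main_large hE hp2 (containsSL hSL) ?_
    rw [← hS]
    exact h
  tfae_have 2 → 1 := fun h => h _ (by norm_num)
  tfae_have 1 → 3 := by
    intro h
    rw [hS] at h
    obtain ⟨d, hd, hv⟩ := Pool.Agent.H502.TZ.main_one_three hE hp2 h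
    refine ⟨d, hd, fun v h2 h3 h4 h5 => ?_⟩
    rw [hS]
    exact hv v ⟨h2, h4, h3⟩ (fun ⟨y, hy⟩ => h5 y hy)
  tfae_have 3 → 2 := by
    rintro ⟨d, hd, hv⟩ c hc
    rw [hS] at hv ⊢
    exact Pool.Agent.H502.TZ.main_three_two hE hd
      (fun v hg _ hsq => hv v hg.1 hg.2.2 hg.2.1 (fun y hy => hsq ⟨y, hy⟩)) hc
  tfae_finish

end Pool.Agent.Results.MP_cda23d_nt.DensityThreeEighths
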